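import Pool.Agent.Q164.SdInt.Data

/-!
# A Cohen–Macaulay* complex whose symmetric decomposition is not interlacing
-/

set_option autoImplicit false

namespace Pool.Agent.Results.MP_64f3b0_co.NotInterlacing

open Finset Pool.Agent.Q164.SdInt

section Defs
variable {V : Type} [Fintype V] [LinearOrder V]

/-- `L` has dimension `n - 1` and is Cohen–Macaulay over `k`: its barycentric subdivision is
Cohen–Macaulay over `k`. -/
def CMOfDim (k : Type) [Field k] (n : ℕ) (L : SCx V) : Prop := size L = n ∧ IsCM k (sd L)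

/-- `F` is a facet of `L`. -/
def IsFacet (L : SCx V) (F : Finset V) : Prop := F ∈ L.faces ∧ ∀ G ∈ L.faces, F ⊆ G → G = F

/-- `L` is Cohen–Macaulay* of dimension `n - 1` over `k`: `L` and every complex obtained from `L` by
deleting a single facet are Cohen–Macaulay of dimension `n - 1`. -/
def IsCMStar (k : Type) [Field k] (n : ℕ) (L : SCx V) : Prop :=
  CMOfDim k n L ∧ ∀ F, IsFacet L F → ∀ L' : SCx V, L'.faces = L.faces.erase F → CMOfDim k n L'

end Defs

/-- `p = a + x b` is the symmetric decomposition of `p` with respect to `n`: `a(x) = x^n a(1/x)` and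
`b(x) = x^(n-1) b(1/x)`. -/
structure IsSymDecomp (n : ℕ) (p a b : Polynomial ℝ) : Prop where
  sum : p = a + Polynomial.X * b
  a_zero : ∀ i, n < i → a.coeff i = 0
  a_symm : ∀ i ≤ n, a.coeff i = a.coeff (n - i)
  b_zero : ∀ i, n ≤ i → b.coeff i = 0
  b_symm : ∀ i < n, b.coeff i = b.coeff (n - 1 - i)

/-- The real roots of a polynomial in weakly decreasing order, with multiplicities. -/
noncomputable def rootsDesc (p : Polynomial ℝ) : List ℝ := p.roots.sort (· ≥ ·)

/-- `b` interlaces `a`: one of them is zero, or `⋯ ≤ β₂ ≤ α₂ ≤ β₁ ≤ α₁` for the decreasingly ordered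
roots `β` of `b` and `α` of `a` (all those of the inequalities for which both roots exist). -/
def Interlaces (b a : Polynomial ℝ) : Prop :=
  b = 0 ∨ a = 0 ∨
    ((∀ (i : ℕ) (h : i < (rootsDesc b).length) (h' : i < (rootsDesc a).length),
        (rootsDesc b)[i] ≤ (rootsDesc a)[i]) ∧
      ∀ (i : ℕ) (h : i + 1 < (rootsDesc a).length) (h' : i < (rootsDesc b).length),
        (rootsDesc a)[i + 1] ≤ (rootsDesc b)[i])

/-! ### The complex -/

/-- the facets -/
def facets : List (Finset (Fin 6)) :=
  [{0, 3, 4}, {0, 2, 4}, {1, 2, 3}, {1, 2, 4}, {0, 2, 5}, {2, 3, 5}, {0, 3, 5}, {1, 3, 5}, {3, 4, 5},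
    {1, 4, 5}]

/-- the complex: a triangulated sphere with two adjacent edges identified -/
def L : SCx (Fin 6) where
  faces := Finset.univ.filter fun s => ∃ t ∈ facets, s ⊆ t
  empty_mem := by decide +kernel
  down := by
    intro F hF G hG
    rw [Finset.mem_filter] at hF ⊢
    obtain ⟨_, t, ht, h⟩ := hF
    exact ⟨Finset.mem_univ _, t, ht, hG.trans h⟩

lemma faces_iff : ∀ s, s ∈ L.faces ↔ ∃ t ∈ T0, s ⊆ D t := by
  decide +kernel

lemma facet_iff : ∀ F : Finset (Fin 6), (F ∈ L.faces ∧ ∀ G ∈ L.faces, F ⊆ G → G = F) →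
    ∃ t ∈ T0, F = D t := by
  decide +kernel

lemma erase_iff : ∀ t ∈ T0, ∀ s, s ∈ L.faces.erase (D t) ↔ ∃ t' ∈ T0.erase t, s ⊆ D t' := by
  decide +kernel

lemma size_erase : ∀ t ∈ T0, (L.faces.erase (D t)).sup Finset.card = 3 := by
  decide +kernel

lemma size_L : size L = 3 := by
  decide +kernel

lemma good_erase : ∀ t ∈ T0, ∃ S, Good (T0.erase t) S := by
  intro t ht
  simp only [T0, List.mem_cons, List.not_mem_nil, or_false] at ht
  rcases ht with rfl | rfl | rfl | rfl | rfl | rfl | rfl | rfl | rfl | rfl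
  · exact ⟨_, good1⟩
  · exact ⟨_, good2⟩
  · exact ⟨_, good3⟩
  · exact ⟨_, good4⟩
  · exact ⟨_, good5⟩
  · exact ⟨_, good6⟩
  · exact ⟨_, good7⟩
  · exact ⟨_, good8⟩
  · exact ⟨_, good9⟩
  · exact ⟨_, good10⟩

lemma cmStar (k : Type) [Field k] : IsCMStar k 3 L := by
  refine ⟨⟨size_L, good0.cm L faces_iff k⟩, ?_⟩
  intro F hF L' hL'
  obtain ⟨t, ht, rfl⟩ := facet_iff F hF
  obtain ⟨S, hS⟩ := good_erase t ht
  refine ⟨?_, hS.cm L' ?_ k⟩
  · unfold size
    rw [hL']
    exact size_erase t ht
  · intro s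
    rw [hL']
    exact erase_iff t ht s

/-! ### The h-polynomial -/

/-- the faces with `j` vertices, as sets of masks -/
def XX (S : List (List ℕ × List ℕ)) (j : ℕ) : Finset (Finset ℕ) :=
  (S.map Prod.snd).toFinset.biUnion (fun l => l.toFinset.powersetCard j)

lemma numFaces_eq {T : List ℕ} {S : List (List ℕ × List ℕ)} (h : Good T S) (K : SCx (Fin 6))
    (hK : ∀ s, s ∈ K.faces ↔ ∃ t ∈ T, s ⊆ D t) (j : ℕ) : numFaces (sd K) j = (XX S j).card := by
  classical
  have hmem := h.mem_sd K hK
  have hlt : ∀ p ∈ S, ∀ x ∈ p.2, x < 64 := fun p hp x hx => (h.nodup p hp).2.2 x hx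
  have hinj : Set.InjOn D' (Finset.range 64 : Finset ℕ) := by
    intro x hx y hy hxy
    rw [Finset.mem_coe, Finset.mem_range] at hx hy
    exact D_inj x hx y hy (by simpa [D'] using hxy)
  have hsub : ∀ G ∈ XX S j, G ⊆ Finset.range 64 := by
    intro G hG x hx
    unfold XX at hG
    rw [Finset.mem_biUnion] at hG
    obtain ⟨l, hl, hG⟩ := hG
    rw [List.mem_toFinset, List.mem_map] at hl
    obtain ⟨p, hp, rfl⟩ := hl
    rw [Finset.mem_powersetCard] at hG
    have := hG.1 hx
    rw [List.mem_toFinset] at this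
    rw [Finset.mem_range]
    exact hlt p hp x this
  have hcard : ∀ G : Finset ℕ, G ⊆ Finset.range 64 → (G.image D').card = G.card := by
    intro G hG
    apply Finset.card_image_of_injOn
    exact hinj.mono (by exact_mod_cast hG)
  unfold numFaces
  have heq : ((sd K).faces.filter fun F => F.card = j) = (XX S j).image (Finset.image D') := by
    ext G
    rw [Finset.mem_filter, hmem, Finset.mem_image]
    constructor
    · rintro ⟨⟨i, hi, hG⟩, hc⟩
      unfold toF at hG
      obtain ⟨G', hG', rfl⟩ := Finset.subset_image_iff.1 hG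
      refine ⟨G', ?_, rfl⟩
      have hp : S.getD i ([], []) ∈ S := by
        rw [List.getD_eq_getElem _ _ hi]
        exact List.getElem_mem _
      have hr : G' ⊆ Finset.range 64 := by
        intro x hx
        have := hG' hx
        rw [List.mem_toFinset] at this
        rw [Finset.mem_range]
        exact hlt _ hp x this
      unfold XX
      rw [Finset.mem_biUnion]
      refine ⟨(S.getD i ([], [])).2, ?_, ?_⟩
      · rw [List.mem_toFinset, List.mem_map]
        exact ⟨_, hp, rfl⟩
      · rw [Finset.mem_powersetCard]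
        refine ⟨hG', ?_⟩
        rw [← hcard G' hr]
        exact hc
    · rintro ⟨G', hG', rfl⟩
      have hr := hsub G' hG'
      unfold XX at hG'
      rw [Finset.mem_biUnion] at hG'
      obtain ⟨l, hl, hG⟩ := hG'
      rw [List.mem_toFinset, List.mem_map] at hl
      obtain ⟨p, hp, rfl⟩ := hl
      rw [Finset.mem_powersetCard] at hG
      obtain ⟨i, hi, hpi⟩ := List.getElem_of_mem hp
      refine ⟨⟨i, hi, ?_⟩, ?_⟩
      · rw [List.getD_eq_getElem _ _ hi, hpi]
        unfold toF
        exact Finset.image_subset_image hG.1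
      · rw [hcard G' hr]
        exact hG.2
  rw [heq, Finset.card_image_of_injOn]
  intro G hG G' hG' hGG
  exact Finset.image_injOn_powerset_of_injOn hinj (by
    rw [Finset.mem_coe, Finset.mem_powerset]; exact hsub G hG) (by
    rw [Finset.mem_coe, Finset.mem_powerset]; exact hsub G' hG') hGG

set_option maxRecDepth 100000 in
lemma card0 : (XX S0 0).card = 1 := by decide +kernel

set_option maxRecDepth 100000 in
lemma card1 : (XX S0 1).card = 30 := by decide +kernel

set_option maxRecDepth 100000 in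
lemma card2 : (XX S0 2).card = 88 := by decide +kernel

set_option maxRecDepth 100000 in
lemma card3 : (XX S0 3).card = 60 := by decide +kernel

open Polynomial in
lemma hPoly_eq : hPoly 3 (sd L) = C 1 + C 27 * X + C 31 * X ^ 2 + C 1 * X ^ 3 := by
  unfold hPoly
  rw [Finset.sum_range_succ, Finset.sum_range_succ, Finset.sum_range_succ, Finset.sum_range_succ,
    Finset.sum_range_zero, numFaces_eq good0 L faces_iff, numFaces_eq good0 L faces_iff,
    numFaces_eq good0 L faces_iff, numFaces_eq good0 L faces_iff, card0, card1, card2, card3]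
  have h1 : (C ((1 : ℕ) : ℝ) : ℝ[X]) = 1 := by
    rw [C_eq_natCast]
    norm_num
  have h2 : (C ((30 : ℕ) : ℝ) : ℝ[X]) = 30 := by
    rw [C_eq_natCast]
    norm_num
  have h3 : (C ((88 : ℕ) : ℝ) : ℝ[X]) = 88 := by
    rw [C_eq_natCast]
    norm_num
  have h4 : (C ((60 : ℕ) : ℝ) : ℝ[X]) = 60 := by
    rw [C_eq_natCast]
    norm_num
  have h5 : (C (27 : ℝ) : ℝ[X]) = 27 := map_ofNat C 27
  have h6 : (C (31 : ℝ) : ℝ[X]) = 31 := map_ofNat C 31
  rw [h1, h2, h3, h4, h5, h6, C_1]
  ring

open Polynomial in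
lemma decomp : IsSymDecomp 3 (hPoly 3 (sd L)) (C 1 + C 27 * X + C 27 * X ^ 2 + C 1 * X ^ 3)
    (C 4 * X) := by
  refine ⟨?_, ?_, ?_, ?_, ?_⟩
  · rw [hPoly_eq]
    have h5 : (C (27 : ℝ) : ℝ[X]) = 27 := map_ofNat C 27
    have h6 : (C (31 : ℝ) : ℝ[X]) = 31 := map_ofNat C 31
    have h7 : (C (4 : ℝ) : ℝ[X]) = 4 := map_ofNat C 4
    rw [h5, h6, h7]
    ring
  · intro i hi
    simp only [coeff_add, coeff_C_mul, coeff_X_pow, coeff_C, coeff_X]
    rw [if_neg (by omega), if_neg (by omega), if_neg (by omega), if_neg (by omega)]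
    ring
  · intro i hi
    interval_cases i <;> simp [coeff_X, coeff_C, coeff_one]
  · intro i hi
    simp only [coeff_C_mul, coeff_X]
    rw [if_neg (by omega)]
    ring
  · intro i hi
    interval_cases i <;> simp [coeff_X]

open Polynomial in
lemma unique_decomp {a b : ℝ[X]} (h : IsSymDecomp 3 (hPoly 3 (sd L)) a b) :
    a = C 1 + C 27 * X + C 27 * X ^ 2 + C 1 * X ^ 3 ∧ b = C 4 * X := by
  obtain ⟨hs, ha0, ha, hb0, hb⟩ := h
  rw [hPoly_eq] at hs
  have e0 := congrArg (fun p => coeff p 0) hs
  have e1 := congrArg (fun p => coeff p 1) hs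
  have e2 := congrArg (fun p => coeff p 2) hs
  have e3 := congrArg (fun p => coeff p 3) hs
  have c0 := ha 0 (by norm_num)
  have c1 := ha 1 (by norm_num)
  have d0 := hb 0 (by norm_num)
  simp [coeff_X, coeff_C, coeff_one, coeff_X_mul] at e0 e1 e2 e3 c0 c1 d0
  have b0 : b.coeff 0 = 0 := by linarith
  have b2 : b.coeff 2 = 0 := by linarith
  have b1 : b.coeff 1 = 4 := by linarith
  constructor
  · ext i
    rcases Nat.lt_or_ge 3 i with h | h
    · rw [ha0 i h]
      simp only [coeff_add, coeff_C_mul, coeff_X_pow, coeff_C, coeff_X]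
      rw [if_neg (by omega), if_neg (by omega), if_neg (by omega), if_neg (by omega)]
      ring
    · interval_cases i <;> simp [coeff_X, coeff_C, coeff_one] <;> linarith
  · ext i
    rcases Nat.lt_or_ge 2 i with h | h
    · rw [hb0 i (by omega)]
      simp only [coeff_C_mul, coeff_X]
      rw [if_neg (by omega)]
      ring
    · interval_cases i <;> simp [coeff_X] <;> linarith

open Polynomial in
lemma not_interlaces : ¬ Interlaces (C 4 * X : ℝ[X])
    (C 1 + C 27 * X + C 27 * X ^ 2 + C 1 * X ^ 3) := by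
  set a : ℝ[X] := C 1 + C 27 * X + C 27 * X ^ 2 + C 1 * X ^ 3 with ha
  have hane : a ≠ 0 := by
    intro h
    have := congrArg (fun p => eval 0 p) h
    simp [ha] at this
  have hbne : (C 4 * X : ℝ[X]) ≠ 0 := by
    intro h
    have := congrArg (fun p => eval 1 p) h
    simp at this
  have hb : rootsDesc (C 4 * X : ℝ[X]) = [0] := by
    unfold rootsDesc
    rw [roots_C_mul _ (by norm_num), roots_X]
    exact Multiset.sort_singleton _ _
  have hroot : (-1 : ℝ) ∈ a.roots := by
    rw [mem_roots hane]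
    simp only [IsRoot, ha, eval_add, eval_mul, eval_C, eval_X, eval_pow]
    norm_num
  have hlen : 0 < (rootsDesc a).length := by
    unfold rootsDesc
    rw [Multiset.length_sort]
    exact Multiset.card_pos_iff_exists_mem.2 ⟨_, hroot⟩
  rintro (h | h | ⟨h, _⟩)
  · exact hbne h
  · exact hane h
  · have h1 := h 0 (by rw [hb]; simp) hlen
    have h2 : (rootsDesc (C 4 * X : ℝ[X]))[0]'(by rw [hb]; simp) = 0 := by
      simp [hb]
    rw [h2] at h1
    have h3 : (rootsDesc a)[0] ∈ a.roots := by
      have : (rootsDesc a)[0] ∈ rootsDesc a := List.getElem_mem _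
      unfold rootsDesc at this
      rwa [Multiset.mem_sort] at this
    rw [mem_roots hane] at h3
    simp only [IsRoot, ha, eval_add, eval_mul, eval_C, eval_X, eval_pow] at h3
    set r := (rootsDesc a)[0]
    have : 0 < 1 + 27 * r + 27 * r ^ 2 + 1 * r ^ 3 := by positivity
    linarith

/-- **The symmetric decomposition for a Cohen–Macaulay* complex need not be interlacing.**
There is a two-dimensional simplicial complex on 6 vertices, Cohen–Macaulay* over every field,
such that in the symmetric decomposition `a + x b` of the `h`-polynomial of its barycentric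
subdivision `b` does not interlace `a`. -/
theorem result : ∃ L : SCx (Fin 6), (∀ (k : Type) [Field k], IsCMStar k 3 L) ∧
    (∃ a b, IsSymDecomp 3 (hPoly 3 (sd L)) a b) ∧
      ∀ a b, IsSymDecomp 3 (hPoly 3 (sd L)) a b → ¬ Interlaces b a := by
  refine ⟨L, fun k _ => cmStar k, ⟨_, _, decomp⟩, ?_⟩
  intro a b hab
  obtain ⟨rfl, rfl⟩ := unique_decomp hab
  exact not_interlaces

end Pool.Agent.Results.MP_64f3b0_co.NotInterlacing
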